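import Pool.Agent.Q148.PlaneGeo

set_option autoImplicit false

/-!
Covering complete geometric graphs by noncrossing paths: more than `n/2` paths may be needed.
-/

namespace Pool.Agent.Results.MP_2ace6b_co.NoncrossingPathCovers

/-- No three distinct points of `A` are collinear. -/
def GeneralPosition (A : Finset (ℝ × ℝ)) : Prop :=
  ∀ a ∈ A, ∀ b ∈ A, ∀ c ∈ A, a ≠ b → a ≠ c → b ≠ c → ¬ Collinear ℝ {a, b, c}

/-- `l` is (the vertex sequence of) a noncrossing path of the complete geometric graph on `A`: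
its vertices are at least two, distinct, and belong to `A`, and any point common to two different
edges (segments between consecutive vertices) is an endpoint of both of them. -/
structure IsNoncrossingPath (A : Finset (ℝ × ℝ)) (l : List (ℝ × ℝ)) : Prop where
  two_le : 2 ≤ l.length
  mem : ∀ v ∈ l, v ∈ A
  nodup : l.Nodup
  noncrossing : ∀ (i j : ℕ) (hi : i + 1 < l.length) (hj : j + 1 < l.length), i ≠ j →
    ∀ x : ℝ × ℝ, x ∈ segment ℝ l[i] l[i + 1] → x ∈ segment ℝ l[j] l[j + 1] →
      (x = l[i] ∨ x = l[i + 1]) ∧ (x = l[j] ∨ x = l[j + 1])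

/-- The complete geometric graph on `A` has a covering by `k` noncrossing paths: every edge
`uv` (with `u ≠ v` in `A`) joins two consecutive vertices of one of the paths. -/
def CoverableBy (A : Finset (ℝ × ℝ)) (k : ℕ) : Prop :=
  ∃ F : Fin k → List (ℝ × ℝ), (∀ r, IsNoncrossingPath A (F r)) ∧
    ∀ u ∈ A, ∀ v ∈ A, u ≠ v → ∃ (r : Fin k) (i : ℕ) (hi : i + 1 < (F r).length),
      ((F r)[i] = u ∧ (F r)[i + 1] = v) ∨ ((F r)[i] = v ∧ (F r)[i + 1] = u)

/-- `p(A)`: the minimum number of noncrossing paths in a covering. -/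
noncomputable def p (A : Finset (ℝ × ℝ)) : ℕ := sInf {k | CoverableBy A k}

theorem exists_coverable (A : Finset (ℝ × ℝ)) : ∃ k, CoverableBy A k := by
  classical
  refine ⟨A.offDiag.card, fun r => [(A.offDiag.equivFin.symm r).1.1,
    (A.offDiag.equivFin.symm r).1.2], fun r => ?_, fun u hu v hv huv => ?_⟩
  · have h := (A.offDiag.equivFin.symm r).2
    rw [Finset.mem_offDiag] at h
    refine ⟨by simp, ?_, by simpa using h.2.2, ?_⟩
    · intro v hv
      simp only [List.mem_cons, List.not_mem_nil, or_false] at hv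
      rcases hv with rfl | rfl
      · exact h.1
      · exact h.2.1
    · intro i j hi hj hij
      simp only [List.length_cons, List.length_nil] at hi hj
      omega
  · have hm : (u, v) ∈ A.offDiag := by
      rw [Finset.mem_offDiag]; exact ⟨hu, hv, huv⟩
    refine ⟨A.offDiag.equivFin ⟨(u, v), hm⟩, 0, by simp, Or.inl ?_⟩
    simp

theorem coverable_p (A : Finset (ℝ × ℝ)) : CoverableBy A (p A) :=
  Nat.sInf_mem (exists_coverable A)

theorem infix_iff {α : Type*} (u v : α) (l : List α) :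
    [u, v] <:+: l ↔ ∃ (i : ℕ) (hi : i + 1 < l.length), l[i] = u ∧ l[i + 1] = v := by
  constructor
  · rintro ⟨s, t, rfl⟩
    refine ⟨s.length, by simp, ?_, ?_⟩
    · simp
    · simp
  · rintro ⟨i, hi, rfl, rfl⟩
    refine ⟨l.take i, l.drop (i + 2), ?_⟩
    have h1 : l.drop i = l[i] :: l.drop (i + 1) := List.drop_eq_getElem_cons (by omega)
    have h2 : l.drop (i + 1) = l[i + 1] :: l.drop (i + 2) := List.drop_eq_getElem_cons hi
    calc l.take i ++ [l[i], l[i + 1]] ++ l.drop (i + 2)
        = l.take i ++ l.drop i := by rw [h1, h2]; simp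
      _ = l := List.take_append_drop i l

/-- The blow-up of the seven point set: every point replaced by `t` nearby points. -/
noncomputable def blowUp (t : ℕ) : Finset (ℝ × ℝ) := Finset.univ.image (Q148.PC.q t)

theorem card_blowUp (t : ℕ) : (blowUp t).card = 7 * t := by
  unfold blowUp
  rw [Finset.card_image_of_injective _ (Q148.PC.q_injective t)]
  simp

theorem mem_blowUp {t : ℕ} {v : ℝ × ℝ} : v ∈ blowUp t ↔ ∃ a, Q148.PC.q t a = v := by
  simp [blowUp]

theorem generalPosition_blowUp (t : ℕ) : GeneralPosition (blowUp t) := by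
  intro a ha b hb c hc h1 h2 h3 hcol
  obtain ⟨a, rfl⟩ := mem_blowUp.mp ha
  obtain ⟨b, rfl⟩ := mem_blowUp.mp hb
  obtain ⟨c, rfl⟩ := mem_blowUp.mp hc
  exact Q148.PC.orr_ne (fun h => h1 (by rw [h])) (fun h => h2 (by rw [h]))
    (fun h => h3 (by rw [h])) (Q148.PC.collinear_orr hcol)

theorem lower_bound (t k : ℕ) (ht : 0 < t) (h : CoverableBy (blowUp t) k) : 18 * t ≤ 5 * k := by
  classical
  obtain ⟨F, hF, hcov⟩ := h
  have hex : ∀ r, ∃ L : List (Fin 7 × Fin t), L.map (Q148.PC.q t) = F r := by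
    intro r
    have h1 : ∀ v ∈ F r, ∃ a, Q148.PC.q t a = v := fun v hv => mem_blowUp.mp ((hF r).mem v hv)
    generalize F r = l at h1
    induction l with
    | nil => exact ⟨[], rfl⟩
    | cons x l ih =>
      obtain ⟨L, hL⟩ := ih (fun v hv => h1 v (List.mem_cons_of_mem _ hv))
      obtain ⟨a, ha⟩ := h1 x (by simp)
      exact ⟨a :: L, by simp [hL, ha]⟩
  choose L hL using hex
  have hlen : ∀ r, (F r).length = (L r).length := fun r => by rw [← hL r]; simp
  have hget : ∀ r i (hi : i < (L r).length) (hi' : i < (F r).length),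
      (F r)[i] = Q148.PC.q t (L r)[i] := by
    intro r i hi hi'
    simp only [← hL r, List.getElem_map]
  refine Q148.PC.cover_bound ht L ?_ ?_ ?_
  · intro r
    have := (hF r).nodup
    rw [← hL r] at this
    exact List.Nodup.of_map _ this
  · intro r a b c d hab hcd hcr
    have hne := Q148.PC.crossing_ne hcr
    obtain ⟨x, hx1, hx2⟩ := Q148.PC.inter_of_crossing a b c d hcr
    -- indices of the two edges
    have key : ∀ u v : Fin 7 × Fin t, ([u, v] <:+: L r ∨ [v, u] <:+: L r) →
        ∃ (i : ℕ) (hi : i + 1 < (L r).length),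
          ((L r)[i] = u ∧ (L r)[i + 1] = v) ∨ ((L r)[i] = v ∧ (L r)[i + 1] = u) := by
      intro u v huv
      rcases huv with huv | huv
      · obtain ⟨i, hi, h1, h2⟩ := (infix_iff _ _ _).mp huv
        exact ⟨i, hi, Or.inl ⟨h1, h2⟩⟩
      · obtain ⟨i, hi, h1, h2⟩ := (infix_iff _ _ _).mp huv
        exact ⟨i, hi, Or.inr ⟨h1, h2⟩⟩
    obtain ⟨i, hi, hi'⟩ := key a b hab
    obtain ⟨j, hj, hj'⟩ := key c d hcd
    have hac : a ≠ c := fun h => hne.1 (by rw [h])
    have had : a ≠ d := fun h => hne.2.1 (by rw [h])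
    have hbc : b ≠ c := fun h => hne.2.2.1 (by rw [h])
    have hbd : b ≠ d := fun h => hne.2.2.2 (by rw [h])
    have hij : i ≠ j := by
      rintro rfl
      rcases hi' with ⟨h1, h2⟩ | ⟨h1, h2⟩ <;> rcases hj' with ⟨h3, h4⟩ | ⟨h3, h4⟩
      · exact hac (h1.symm.trans h3)
      · exact had (h1.symm.trans h3)
      · exact hbc (h1.symm.trans h3)
      · exact hbd (h1.symm.trans h3)
    have hiF : i + 1 < (F r).length := by rw [hlen]; exact hi
    have hjF : j + 1 < (F r).length := by rw [hlen]; exact hj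
    have hseg1 : x ∈ segment ℝ (F r)[i] (F r)[i + 1] := by
      rw [hget r i (by omega), hget r (i + 1) hi]
      rcases hi' with ⟨h1, h2⟩ | ⟨h1, h2⟩
      · rw [h1, h2]; exact hx1
      · rw [h1, h2, segment_symm]; exact hx1
    have hseg2 : x ∈ segment ℝ (F r)[j] (F r)[j + 1] := by
      rw [hget r j (by omega), hget r (j + 1) hj]
      rcases hj' with ⟨h1, h2⟩ | ⟨h1, h2⟩
      · rw [h1, h2]; exact hx2
      · rw [h1, h2, segment_symm]; exact hx2
    have hfin := (hF r).noncrossing i j hiF hjF hij x hseg1 hseg2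
    rw [hget r i (by omega), hget r (i + 1) hi, hget r j (by omega), hget r (j + 1) hj] at hfin
    have hinj := Q148.PC.q_injective t
    have hxi : x = Q148.PC.q t a ∨ x = Q148.PC.q t b := by
      rcases hi' with ⟨h1, h2⟩ | ⟨h1, h2⟩
      · rw [h1, h2] at hfin; exact hfin.1
      · rw [h1, h2] at hfin; exact hfin.1.symm
    have hxj : x = Q148.PC.q t c ∨ x = Q148.PC.q t d := by
      rcases hj' with ⟨h1, h2⟩ | ⟨h1, h2⟩
      · rw [h1, h2] at hfin; exact hfin.2
      · rw [h1, h2] at hfin; exact hfin.2.symm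
    rcases hxi with h1 | h1 <;> rcases hxj with h2 | h2
    · exact hac (hinj (h1.symm.trans h2))
    · exact had (hinj (h1.symm.trans h2))
    · exact hbc (hinj (h1.symm.trans h2))
    · exact hbd (hinj (h1.symm.trans h2))
  · intro u v huv
    obtain ⟨r, i, hi, h⟩ := hcov (Q148.PC.q t u) (mem_blowUp.mpr ⟨u, rfl⟩) (Q148.PC.q t v)
      (mem_blowUp.mpr ⟨v, rfl⟩) (fun h => huv (Q148.PC.q_injective t h))
    have hi2 : i + 1 < (L r).length := by rw [← hlen]; exact hi
    rw [hget r i (by omega), hget r (i + 1) hi2] at h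
    have hinj := Q148.PC.q_injective t
    refine ⟨r, ?_⟩
    rcases h with ⟨h1, h2⟩ | ⟨h1, h2⟩
    · exact Or.inl ((infix_iff _ _ _).mpr ⟨i, hi2, hinj h1, hinj h2⟩)
    · exact Or.inr ((infix_iff _ _ _).mpr ⟨i, hi2, hinj h1, hinj h2⟩)

/-- With `c = 18/35 > 1/2`: for infinitely many `n` (namely all positive multiples of `7`) there
is an `n`-point set `A` in general position in the plane with `p(A) ≥ c n`. -/
theorem result : ∃ c : ℝ, 1 / 2 < c ∧ c = 18 / 35 ∧
    ∀ t : ℕ, 0 < t → ∃ A : Finset (ℝ × ℝ),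
      A.card = 7 * t ∧ GeneralPosition A ∧ c * (A.card : ℝ) ≤ (p A : ℝ) := by
  refine ⟨18 / 35, by norm_num, rfl, fun t ht => ⟨blowUp t, card_blowUp t,
    generalPosition_blowUp t, ?_⟩⟩
  have h := lower_bound t _ ht (coverable_p (blowUp t))
  rw [card_blowUp]
  have h' : (18 : ℝ) * t ≤ 5 * (p (blowUp t) : ℝ) := by exact_mod_cast h
  push_cast
  linarith

end Pool.Agent.Results.MP_2ace6b_co.NoncrossingPathCovers
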